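import Mathlib
import Pool.Agent.Work.MP_787500_nt.HP.BKDefs

/-!
Parity of Bloch-Kato Selmer groups with ramification at inert primes: definitions used in the statement (fixed, do
not change). `selmerBK` is in `HP/BKDefs.lean`.
-/

set_option autoImplicit false

namespace Pool.Agent.Work.MP_787500_nt.Parity

open NumberField Matrix

section group

variable {G : Type*} [Group G] [TopologicalSpace G]
variable {E : Type*} [NormedField E]
variable {n : ℕ}

/-- For every space `L` of continuous cocycles of `D` that contains the coboundaries: `L` and the Selmer
space are finite dimensional, the Selmer space contains the coboundaries of `G`, its dimension modulo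
coboundaries plus the dimension of the space of vectors fixed by `G` is congruent modulo 2 to the
dimension of `L` modulo coboundaries plus the dimension of the space of vectors fixed by `D` plus `a`. -/
def ParityBKA (N : Set (Subgroup G)) (χ : G → E) (κ : G → G) (ρ : G →* Matrix (Fin n) (Fin n) E)
    (b : Matrix (Fin n) (Fin n) E) (D : Subgroup G) (a : ℕ) : Prop :=
  ∀ L : Submodule E (D → Fin n → E),
    Between (coboundaries (fun σ : D => ρ σ)) L (cocycles (fun σ : D => ρ σ)) →
    FiniteDimensional E L ∧ FiniteDimensional E (selmerBK N χ κ ρ b D L) ∧
    coboundaries ρ ≤ selmerBK N χ κ ρ b D L ∧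
    dimModulo (selmerBK N χ κ ρ b D L) (coboundaries ρ) +
        Module.finrank E (fixedBy (fun σ : G => ρ σ)) ≡
      dimModulo L (coboundaries (fun σ : D => ρ σ)) +
        Module.finrank E (fixedBy (fun σ : D => ρ σ)) + a [MOD 2]

/-- the elements of `I` act by commuting matrices -/
def CommOn (I : Subgroup G) (ρ : G →* Matrix (Fin n) (Fin n) E) : Prop :=
  ∀ σ ∈ I, ∀ τ ∈ I, ρ σ * ρ τ = ρ τ * ρ σ

open scoped Classical in
/-- The codimension of the space of vectors fixed by `I`, plus 1 if `I` does not act by commuting matrices. (In the
theorem `I` is an inertia group, and this number is congruent modulo 2 to the exponent of the Artin conductor.) -/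
noncomputable def condExp (I : Subgroup G) (ρ : G →* Matrix (Fin n) (Fin n) E) : ℕ :=
  n - Module.finrank E (fixedBy (fun σ : I => ρ σ)) + if CommOn I ρ then 0 else 1

end group

end Pool.Agent.Work.MP_787500_nt.Parity
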