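import Mathlib
import Pool.Agent.Work.MP_787500_nt.QV.Ind
import Pool.Agent.Work.MP_787500_nt.QU.UrQ
import Pool.Agent.Work.MP_787500_nt.QF.Glob3
import Pool.Agent.Work.MP_787500_nt.LB.BK

/-!
The Selmer space of `V × V` over the rational numbers: continuity of cocycles and the conditions at the inertia
groups.

* `two_K`: the absolute Galois group of `K` in the group of the rational numbers.
* `n1e_iff`, `coc_iff`: continuous cocycles of `K` that vanish on the inertia groups at the primes outside of `T` are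
  the cocycles that are continuous for the system over the rational numbers.
* `cob_over`: the condition at the chosen prime of the rational numbers over `l` for `ind x` means that `x` is a
  coboundary on the inertia groups of all primes over `l`.
-/

set_option autoImplicit false
set_option linter.unusedSectionVars false

namespace Pool.Agent.Work.MP_787500_nt.QW

open Matrix NumberField
open Pool.Agent.Work.MP_787500_nt.GP (OE bil Lat inT stabD cupE)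
open Pool.Agent.Work.MP_787500_nt.KR (FSys IsChar ZV zV LocRep IsBig fullC fullD fullK fullQ big Opn PerpV
  perpSub)
open Pool.Agent.Work.MP_787500_nt.PA (toE cyc)
open Pool.Agent.Work.MP_787500_nt.HP (IsQ Spl IsP inr stb cyQ OpnQ)
open Pool.Agent.Work.MP_787500_nt.KS (iK)
open Pool.Agent.Work.MP_787500_nt.QS (Two)
open Pool.Agent.Work.MP_787500_nt.QV (ind rho2 N1e)

universe u w

variable {K : Type u} [Field K] [NumberField K] {D : ℕ} {s : K}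
  {c : AlgebraicClosure K ≃+* AlgebraicClosure K} {κ : AbsGal K →* AbsGal K} {T : Finset ℕ}
  {P : ℕ → Ideal (𝓞 (AlgebraicClosure K))} {N₀ : Subgroup (AbsGal K)}

/-- the system over the rational numbers -/
noncomputable abbrev sysQ (T : Finset ℕ) (N₀ : Subgroup (AbsGal K)) :
    FSys (AlgebraicClosure K ≃+* AlgebraicClosure K) :=
  big (fullQ (AlgebraicClosure K) (T : Set ℕ)) (N₀.map (iK K))

/-- the absolute Galois group of `K` in the group of the rational numbers -/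
theorem two_K (hK : IsQ K D s) (hc : PA.IsConj s c)
    (hκ : ∀ (σ : AbsGal K) (x : AlgebraicClosure K), κ σ x = c (σ (c x))) : Two (iK K) c κ where
  inj := HP.emb_inj _
  cc := KS.c_sq hc
  kap := GA.emb_kap hκ
  cases := fun σ => by
    rcases KS.iK_cases hK hc σ with ⟨n, h⟩ | ⟨n, h⟩
    · exact Or.inl ⟨n, h.symm⟩
    · exact Or.inr ⟨n, h.symm⟩
  nc := KS.iK_nc hK hc

theorem comap_fullK {W : Subgroup (AlgebraicClosure K ≃+* AlgebraicClosure K)}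
    (hW : (fullQ (AlgebraicClosure K) (T : Set ℕ)).mem W) :
    (fullK (K := K) T).mem (W.comap (iK K)) := by
  obtain ⟨⟨⟨s, hs⟩, hn, hi⟩, hin⟩ := hW
  refine ((GA.emdK (RingEquiv.refl (AlgebraicClosure K)) T).sys _).2
    ⟨inferInstance, ?_, ⟨s, fun g hg => hs _ hg⟩, fun Q hQ h2 hT g hg =>
      hin Q hQ h2 (fun l hl => hT l hl) hg⟩
  rw [Subgroup.index_comap]
  exact fun h0 => hi (Nat.eq_zero_of_zero_dvd (h0 ▸ Subgroup.relIndex_dvd_index_of_normal _ _))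

theorem comap_big {W : Subgroup (AlgebraicClosure K ≃+* AlgebraicClosure K)}
    (hW : (sysQ T N₀).mem W) : (big (fullK (K := K) T) N₀).mem (W.comap (iK K)) := by
  obtain ⟨hn, ⟨W₁, hW₁, hle⟩, hk⟩ := hW
  exact ⟨inferInstance, ⟨_, comap_fullK hW₁, Subgroup.comap_mono hle⟩,
    KR.comap_rel (iK K) W le_rfl hk⟩

theorem up (hK : IsQ K D s) (hc : PA.IsConj s c)
    (hκ : ∀ (σ : AbsGal K) (x : AlgebraicClosure K), κ σ x = c (σ (c x)))
    (hD : D.primeFactors ⊆ T) (kN : ∀ g ∈ N₀, κ g ∈ N₀) {W : Subgroup (AbsGal K)}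
    (hW : (big (fullK (K := K) T) N₀).mem W) :
    ∃ W', (sysQ T N₀).mem W' ∧ ∀ σ ∈ W', ∃ g ∈ W, iK K g = σ := by
  have h := QF.up_big hK hc hκ kN hW
  rw [KS.sQ, Finset.union_eq_left.2 hD] at h
  exact h

/-- members of the system are contained in the group of `K` -/
theorem dn (hK : IsQ K D s) (hc : PA.IsConj s c)
    (hκ : ∀ (σ : AbsGal K) (x : AlgebraicClosure K), κ σ x = c (σ (c x)))
    (hD : D.primeFactors ⊆ T) (kN : ∀ g ∈ N₀, κ g ∈ N₀) :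
    ∃ W', (sysQ T N₀).mem W' ∧ ∀ σ ∈ W', ∃ g, iK K g = σ := by
  obtain ⟨W, hW⟩ := (big (fullK (K := K) T) N₀).ex
  obtain ⟨W', hW', h⟩ := up hK hc hκ hD kN hW
  exact ⟨W', hW', fun σ hσ => by
    obtain ⟨g, -, hg⟩ := h σ hσ
    exact ⟨g, hg⟩⟩

section

variable {E : Type*} [NormedField E] [NormedAlgebra ℚ_[2] E] {n : ℕ}

theorem n1e_iff (hK : IsQ K D s) (hc : PA.IsConj s c)
    (hκ : ∀ (σ : AbsGal K) (x : AlgebraicClosure K), κ σ x = c (σ (c x)))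
    (hD : D.primeFactors ⊆ T) (kN : ∀ g ∈ N₀, κ g ∈ N₀) {x : AbsGal K → Fin n → E} :
    N1e (sysQ T N₀) (iK K) x ↔ KP.N1 (big (fullK (K := K) T) N₀) x := by
  constructor
  · intro h ε hε
    obtain ⟨W, hW, h1⟩ := h ε hε
    exact ⟨_, comap_big hW, fun g w hw => h1 g w hw⟩
  · intro h ε hε
    obtain ⟨W, hW, h1⟩ := h ε hε
    obtain ⟨W', hW', h2⟩ := up hK hc hκ hD kN hW
    refine ⟨W', hW', fun g w hw => h1 g w ?_⟩
    obtain ⟨w', hw', h3⟩ := h2 _ hw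
    rwa [HP.emb_inj _ h3] at hw'

variable [FiniteDimensional ℚ_[2] E] {ρ : AbsGal K →* Matrix (Fin n) (Fin n) E}
  {b : Matrix (Fin n) (Fin n) E}

theorem coc_iff (hK : IsQ K D s) (hc : PA.IsConj s c)
    (hκ : ∀ (σ : AbsGal K) (x : AlgebraicClosure K), κ σ x = c (σ (c x)))
    (hD : D.primeFactors ⊆ T) (hNn : N₀.Normal) (hNo : IsOpen (N₀ : Set (AbsGal K)))
    (kN : ∀ g ∈ N₀, κ g ∈ N₀) (hNI : ∀ σ ∈ inT K T, σ ∈ N₀)
    (hρ : Gn.ConjDual 2 N₀ (inT K T) (Parity.cyclo E) κ ρ b) {x : AbsGal K → Fin n → E} :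
    (N1e (sysQ T N₀) (iK K) x ∧ ∀ s t, x (s * t) = x s + ρ s *ᵥ x t) ↔
      Parity.IsCocycle ρ x ∧ ∀ σ ∈ inT K T, x σ = 0 := by
  rw [n1e_iff hK hc hκ hD kN]
  exact (KR.big_coc (KR.base_K hNn hNo hNI) (KR.isBig_K T N₀)
    ⟨map_one ρ, fun s t => map_mul ρ s t, hρ.cont, fun s hs => hρ.proP s hs⟩
    (fun σ hσ => hρ.unram σ hσ)).symm

end

section inertia

variable {E : Type*} [NormedField E] [NormedAlgebra ℚ_[2] E] {n : ℕ}
  {ρ : AbsGal K →* Matrix (Fin n) (Fin n) E}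

theorem emb_refl_inr {Q : Ideal (𝓞 (AlgebraicClosure K))} {σ : AbsGal K} :
    iK K σ ∈ inr Q ↔ σ ∈ Q.inertia (AbsGal K) := by
  rw [HP.emb_inr, GA.pb_refl]

/-- the restriction to a conjugate subgroup -/
theorem cob_conj {x : AbsGal K → Fin n → E} (hx : ∀ s t, x (s * t) = x s + ρ s *ᵥ x t)
    {g : AbsGal K} {I : Subgroup (AbsGal K)} {v₀ : Fin n → E}
    (hv₀ : ∀ σ ∈ I, x (g⁻¹ * σ * g) = ρ (g⁻¹ * σ * g) *ᵥ v₀ - v₀) :
    ∀ σ ∈ I, x σ = ρ σ *ᵥ (ρ g *ᵥ v₀ - x g) - (ρ g *ᵥ v₀ - x g) := by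
  intro σ hσ
  have hx1 : x 1 = 0 := by
    have h := hx 1 1
    rw [mul_one, map_one, one_mulVec] at h
    exact left_eq_add.1 h
  have hxi : ρ g *ᵥ x g⁻¹ = -x g := by
    have h8 := hx g g⁻¹
    rw [mul_inv_cancel, hx1] at h8
    rw [eq_neg_iff_add_eq_zero, add_comm]
    exact h8.symm
  have h7 : σ = g * (g⁻¹ * σ * g) * g⁻¹ := by group
  have h8 : ρ σ = ρ g * ρ (g⁻¹ * σ * g) * ρ g⁻¹ := by
    rw [← map_mul, ← map_mul, ← h7]
  have hgi : ρ g⁻¹ * ρ g = 1 := by rw [← map_mul, inv_mul_cancel, map_one]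
  have hgi' : ρ g * ρ g⁻¹ = 1 := by rw [← map_mul, mul_inv_cancel, map_one]
  have h9 : x σ = x g + ρ g *ᵥ x (g⁻¹ * σ * g) +
      (ρ g * ρ (g⁻¹ * σ * g)) *ᵥ x g⁻¹ := by
    conv_lhs => rw [h7]
    rw [hx, hx, map_mul]
  have h10 : x g⁻¹ = -(ρ g⁻¹ *ᵥ x g) := by
    have : ρ g⁻¹ *ᵥ (ρ g *ᵥ x g⁻¹) = x g⁻¹ := by rw [mulVec_mulVec, hgi, one_mulVec]
    rw [← this, hxi, mulVec_neg]
  rw [h9, hv₀ σ hσ, h10, h8, mulVec_sub, mulVec_sub, mulVec_neg]
  simp only [mulVec_mulVec, Matrix.mul_assoc, hgi, mul_one]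
  abel

/-- THE CONDITION AT A PRIME NUMBER `l`. -/
theorem cob_over (hK : IsQ K D s) (hc : PA.IsConj s c)
    (hκ : ∀ (σ : AbsGal K) (x : AlgebraicClosure K), κ σ x = c (σ (c x)))
    (hP : IsP T P) (hθ : ∀ p ∈ D.primeFactors, ∃ m : AbsGal K, iK K m * c ∈ inr (P p)) {l : ℕ}
    (hl : l ∈ T) {x : AbsGal K → Fin n → E} (hx : ∀ s t, x (s * t) = x s + ρ s *ᵥ x t) :
    (∃ v, ∀ σ ∈ inr (P l), ind (iK K) c κ x σ = rho2 (iK K) c κ (fun g => ρ g) σ *ᵥ v - v) ↔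
      ∀ Q : Ideal (𝓞 (AlgebraicClosure K)), Q.IsPrime → (l : 𝓞 (AlgebraicClosure K)) ∈ Q →
        ∃ v, ∀ σ ∈ Q.inertia (AbsGal K), x σ = ρ σ *ᵥ v - v := by
  have X := two_K hK hc hκ
  have hQ0 := hP.isPrime l (Or.inl hl)
  have hm0 := hP.mem l (Or.inl hl)
  have h20 : (2 : 𝓞 (AlgebraicClosure K)) ∉ P l := KS.two_notMem (hP.prime l hl) (hP.odd l hl) hQ0 hm0
  have hκκ : ∀ g, κ (κ g) = g := GA.kap_kap hc hκ
  constructor
  · rintro ⟨v, hv⟩ Q hQ hlQ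
    have h1 : ∀ g, g ∈ (P l).inertia (AbsGal K) → x g = ρ g *ᵥ QV.v1 v - QV.v1 v := fun g hg => by
      have h2 := congrArg QV.v1 (hv _ (emb_refl_inr.2 hg))
      rw [QV.ind_e X, QV.v1_ap, QV.v1_sub, QV.v1_rho X] at h2
      exact h2
    have h2 : ∀ g, g ∈ (P l).inertia (AbsGal K) →
        x (κ g) = ρ (κ g) *ᵥ QV.v2 v - QV.v2 v := fun g hg => by
      have h2 := congrArg QV.v2 (hv _ (emb_refl_inr.2 hg))
      rw [QV.ind_e X, QV.v2_ap, QV.v2_sub, QV.v2_rho X] at h2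
      exact h2
    obtain ⟨g, ⟨-, hg⟩ | ⟨-, hg⟩⟩ := HP.above_k hK (hP.prime l hl) hc hκ hQ0 hm0 hQ hlQ
    · exact ⟨_, cob_conj hx (I := Q.inertia (AbsGal K)) (v₀ := QV.v1 v) fun σ hσ =>
        h1 _ ((hg σ).1 hσ)⟩
    · refine ⟨_, cob_conj hx (I := Q.inertia (AbsGal K)) (v₀ := QV.v2 v) (g := g) fun σ hσ => ?_⟩
      have h3 := h2 _ ((hg σ).1 hσ)
      rwa [hκκ] at h3
  · intro h
    obtain ⟨v, hv⟩ := h (P l) hQ0 hm0
    by_cases hlD : l ∣ D
    · obtain ⟨θ, hθ'⟩ := hθ l (Nat.mem_primeFactors.2 ⟨hP.prime l hl, hlD, hK.sqf.ne_zero⟩)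
      exact (QV.ind_ram X (map_one ρ) (fun s t => map_mul ρ s t) hθ' hx).2
        ⟨v, fun g hg => hv g (emb_refl_inr.1 hg)⟩
    · have hin : ∀ σ ∈ inr (P l), ∃ g, iK K g = σ := fun σ hσ => by
        obtain ⟨g, -, hg⟩ := HP.inr_le (RingEquiv.refl (AlgebraicClosure K)) hK hQ0 h20
          (fun p hp hpD hpQ => by
            have h3 : ((p : ℤ) : 𝓞 (AlgebraicClosure K)) ∈ P l := by
              rw [Int.cast_natCast]
              exact hpQ
            rw [HP.nat_mem (hP.prime l hl) hQ0 hm0] at h3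
            have h4 : l ∣ p := by exact_mod_cast h3
            exact hlD ((Nat.prime_dvd_prime_iff_eq (hP.prime l hl) hp).1 h4 ▸ hpD)) hσ
        exact ⟨g, hg⟩
      obtain ⟨Q', hQ', hlQ', hQQ⟩ : ∃ Q' : Ideal (𝓞 (AlgebraicClosure K)), Q'.IsPrime ∧
          (l : 𝓞 (AlgebraicClosure K)) ∈ Q' ∧
          ∀ σ ∈ (P l).inertia (AbsGal K), κ σ ∈ Q'.inertia (AbsGal K) := by
        refine ⟨GA.cj c (P l), GA.cj_prime hQ0, (GA.nat_mem_cj l).2 hm0, fun σ hσ => ?_⟩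
        rw [← emb_refl_inr, GA.inr_cj, GA.emb_kap hκ]
        have e : c⁻¹ * (c * HP.emb (RingEquiv.refl (AlgebraicClosure K)) σ * c) * c =
            HP.emb (RingEquiv.refl (AlgebraicClosure K)) σ * (c * c) := by group
        rw [e, KS.c_sq hc, mul_one]
        exact emb_refl_inr.2 hσ
      obtain ⟨w, hw⟩ := h Q' hQ' hlQ'
      exact (QV.ind_cob X hin x).2 ⟨⟨v, fun g hg => hv g (emb_refl_inr.1 hg)⟩,
        ⟨w, fun g hg => hw _ (hQQ g (emb_refl_inr.1 hg))⟩⟩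

end inertia

end Pool.Agent.Work.MP_787500_nt.QW
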