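import Mathlib
import Pool.Agent.Work.MP_787500_nt.QW.Sys

/-!
The family of local conditions for `V × V` over the rational numbers, and the Selmer space with the condition of
Bloch and Kato.

* `eSt`: the decomposition groups over `K` and over the rational numbers at a prime with decomposition group in the
  group of `K`; `spe_iff`: the condition `L × L^⊥`.
* `famL`: the family; `selBK_eq`: THE SELMER SPACES AGREE.
-/

set_option autoImplicit false
set_option linter.unusedSectionVars false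

namespace Pool.Agent.Work.MP_787500_nt.QW

open Matrix NumberField
open Pool.Agent.Work.MP_787500_nt.GP (OE bil Lat inT stabD cupE)
open Pool.Agent.Work.MP_787500_nt.KR (FSys IsChar ZV zV LocRep IsBig fullC fullD fullK fullQ big Opn PerpV
  perpSub)
open Pool.Agent.Work.MP_787500_nt.PA (toE cyc)
open Pool.Agent.Work.MP_787500_nt.HP (IsQ Spl IsP inr stb cyQ OpnQ)
open Pool.Agent.Work.MP_787500_nt.KS (iK)
open Pool.Agent.Work.MP_787500_nt.QS (Two)
open Pool.Agent.Work.MP_787500_nt.QV (ind rho2 N1e selK spE prE)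
open Pool.Agent.Work.MP_787500_nt.QU (urV)
open Pool.Agent.Work.MP_787500_nt.GA (HQ SQ)

universe u w

/-- transport of the annihilator -/
theorem perpV_iso {E : Type*} [NormedField E] [NormedAlgebra ℚ_[2] E] {n : ℕ} {D D' : Type*} [Group D]
    [Group D'] {S : FSys D} {S' : FSys D'} {e : D ≃* D'}
    (hS : ∀ W : Subgroup D', S.mem (W.comap e.toMonoidHom) ↔ S'.mem W) {χ : D' → ℤ_[2]}
    {b : Matrix (Fin n) (Fin n) E} {ρ' : D' → Matrix (Fin n) (Fin n) E}
    {L : Submodule E (D → Fin n → E)} {Y : D' → Fin n → E} :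
    PerpV S' χ b ρ' (L.comap (LinearMap.funLeft E (Fin n → E) e)) Y ↔
      PerpV S (fun g => χ (e g)) b (fun g => ρ' (e g)) L (fun g => Y (e g)) := by
  unfold PerpV
  rw [QU.zv_iso hS]
  refine and_congr Iff.rfl ⟨fun h X hX => ?_, fun h X hX => ?_⟩
  · have h1 := h (fun d => X (e.symm d)) (by
      show (fun d => X (e.symm (e d))) ∈ L
      simp only [e.symm_apply_apply]
      exact hX)
    rw [← QU.be_iso hS] at h1
    have e1 : (fun s t => cupE ρ' b (fun d => X (e.symm d)) Y (e s) (e t)) =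
        cupE (fun g => ρ' (e g)) b X (fun g => Y (e g)) := by
      funext s t
      simp only [cupE, e.symm_apply_apply]
    rwa [e1] at h1
  · rw [← QU.be_iso hS]
    exact h _ hX

variable {K : Type u} [Field K] [NumberField K] {D : ℕ} {s : K}
  {c : AlgebraicClosure K ≃+* AlgebraicClosure K} {κ : AbsGal K →* AbsGal K} {T : Finset ℕ}
  {P : ℕ → Ideal (𝓞 (AlgebraicClosure K))} {N₀ : Subgroup (AbsGal K)}
  {Q : Ideal (𝓞 (AlgebraicClosure K))}

/-- the decomposition groups over `K` and over the rational numbers -/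
noncomputable def eSt (h : stb Q ≤ (iK K).range) : stabD (K := K) Q ≃* stb Q :=
  MulEquiv.ofBijective
    ({ toFun := fun σ => ⟨iK K (σ : AbsGal K), GA.emb_refl_stb.2 σ.2⟩
       map_one' := Subtype.ext (map_one (iK K))
       map_mul' := fun σ τ => Subtype.ext (map_mul (iK K) (σ : AbsGal K) τ) } :
        stabD (K := K) Q →* stb Q)
    (by
      constructor
      · intro σ τ h
        exact Subtype.ext (HP.emb_inj _ (congrArg Subtype.val h))
      · intro g
        obtain ⟨σ, hσ⟩ := h g.2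
        refine ⟨⟨σ, GA.emb_refl_stb.1 ?_⟩, Subtype.ext hσ⟩
        rw [hσ]
        exact g.2)

theorem eSt_coe (h : stb Q ≤ (iK K).range) (d : stabD (K := K) Q) :
    ((eSt h d : stb Q) : AlgebraicClosure K ≃+* AlgebraicClosure K) = iK K (d : AbsGal K) := rfl

theorem eSt_symm (h : stb Q ≤ (iK K).range) (g : stb Q) :
    iK K (((eSt h).symm g : stabD (K := K) Q) : AbsGal K) = g := by
  rw [← eSt_coe h, (eSt h).apply_symm_apply]

theorem eSt_sys (h : stb Q ≤ (iK K).range) (N₀ : Subgroup (AbsGal K)) (W : Subgroup (stb Q)) :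
    (big (fullD (stabD (K := K) Q)) (N₀.subgroupOf (stabD Q))).mem (W.comap (eSt h).toMonoidHom) ↔
      (big (fullC (stb Q)) ((N₀.map (iK K)).subgroupOf (stb Q))).mem W := by
  refine QF.big_iso (eSt h) (fun W => ?_) (fun d => ?_) W
  · rw [← GA.fullC_iso (RingEquiv.refl (AlgebraicClosure K)) (eSt h).symm (eSt_symm h)]
    have h1 : (W.comap (eSt h).toMonoidHom).comap ((eSt h).symm : stb Q →* stabD (K := K) Q) = W := by
      ext x
      show eSt h ((eSt h).symm x) ∈ W ↔ x ∈ W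
      rw [(eSt h).apply_symm_apply]
    rw [h1]
  · rw [Subgroup.mem_subgroupOf, Subgroup.mem_subgroupOf, eSt_coe]
    constructor
    · rintro ⟨n, hn, hn'⟩
      have h1 := HP.emb_inj _ hn'
      rw [← h1]
      exact hn
    · intro h
      exact ⟨_, h, rfl⟩

theorem char_D (h : stb Q ≤ (iK K).range) (N₀ : Subgroup (AbsGal K)) :
    IsChar (big (fullD (stabD (K := K) Q)) (N₀.subgroupOf (stabD Q)))
      (fun g : stabD (K := K) Q => cyc (g : AbsGal K)) := by
  have hch : IsChar (big (fullC (stb Q)) ((N₀.map (iK K)).subgroupOf (stb Q)))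
      (fun d : stb Q => cyQ (d : AlgebraicClosure K ≃+* AlgebraicClosure K)) :=
    RQ.char_big (RQ.char_lfull (stb Q)) _
  refine ⟨PA.isChar_cyc.one, fun g h => PA.isChar_cyc.mul _ _, fun n => ?_,
    fun g => PA.isChar_cyc.odd _⟩
  obtain ⟨W, hW, h1⟩ := hch.cont n
  refine ⟨_, (eSt_sys h N₀ W).2 hW, fun g w hw => ?_⟩
  have h3 := h1 (eSt h g) (eSt h w) hw
  beta_reduce at h3
  rw [← map_mul, eSt_coe, eSt_coe, HP.cyQ_emb, HP.cyQ_emb] at h3
  exact h3

section cond

variable {E : Type w} [NormedField E] [NormedAlgebra ℚ_[2] E] {n : ℕ}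
  {ρ : AbsGal K →* Matrix (Fin n) (Fin n) E} {b : Matrix (Fin n) (Fin n) E}

/-- the condition `L × L^⊥` at a prime with decomposition group in the group of `K` -/
noncomputable def speQ (h : stb Q ≤ (iK K).range) (N₀ : Subgroup (AbsGal K)) (κ : AbsGal K →* AbsGal K)
    (ρ : AbsGal K →* Matrix (Fin n) (Fin n) E) (b : Matrix (Fin n) (Fin n) E)
    (L : Submodule E (stabD (K := K) Q → Fin n → E)) : Submodule E (stb Q → Fin (n + n) → E) :=
  spE (big (fullC (stb Q)) ((N₀.map (iK K)).subgroupOf (stb Q)))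
    (fun d => cyc (((eSt h).symm d : stabD (K := K) Q) : AbsGal K)) b
    (fun d => ρ (κ ((eSt h).symm d : stabD (K := K) Q)))
    (L.comap (LinearMap.funLeft E (Fin n → E) (eSt h)))

theorem spe_iff [FiniteDimensional ℚ_[2] E] (X : Two (iK K) c κ) (h : stb Q ≤ (iK K).range)
    (hκ : Continuous κ) (hNn : N₀.Normal) (hNo : IsOpen (N₀ : Set (AbsGal K)))
    (kN : ∀ g ∈ N₀, κ g ∈ N₀) (hρ : Gn.ConjDual 2 N₀ (inT K T) (Parity.cyclo E) κ ρ b)
    {L : Submodule E (stabD (K := K) Q → Fin n → E)}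
    (hL : L ≤ Parity.cocycles (fun σ : stabD (K := K) Q => ρ σ)) (x : AbsGal K → Fin n → E) :
    (fun d : stb Q => ind (iK K) c κ x (d : AlgebraicClosure K ≃+* AlgebraicClosure K)) ∈
        speQ h N₀ κ ρ b L ↔
      (fun σ : stabD (K := K) Q => x σ) ∈ L ∧
        Parity.IsPerp (fun σ : stabD (K := K) Q => Parity.cyclo E (σ : AbsGal K))
          (fun σ => ρ (κ σ)) b (L : Set (stabD (K := K) Q → Fin n → E)) (fun σ => x (κ σ)) := by
  have h1 := QV.ind_pr X (jp := (stb Q).subtype)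
    (j := fun d => (((eSt h).symm d : stabD (K := K) Q) : AbsGal K)) (fun d => (eSt_symm h d).symm)
    (L := L.comap (LinearMap.funLeft E (Fin n → E) (eSt h)))
    (L' := perpSub (big (fullC (stb Q)) ((N₀.map (iK K)).subgroupOf (stb Q)))
      (fun d => cyc (((eSt h).symm d : stabD (K := K) Q) : AbsGal K)) b
      (fun d => ρ (κ ((eSt h).symm d : stabD (K := K) Q)))
      (L.comap (LinearMap.funLeft E (Fin n → E) (eSt h)))) x
  refine h1.trans (and_congr ?_ ?_)
  · show (fun d => x (((eSt h).symm (eSt h d) : stabD (K := K) Q) : AbsGal K)) ∈ L ↔ _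
    simp only [(eSt h).symm_apply_apply]
  · have h2 := perpV_iso (eSt_sys h N₀)
      (χ := fun d => cyc (((eSt h).symm d : stabD (K := K) Q) : AbsGal K)) (b := b)
      (ρ' := fun d => ρ (κ ((eSt h).symm d : stabD (K := K) Q))) (L := L)
      (Y := fun d => x (κ ((eSt h).symm d : stabD (K := K) Q)))
    simp only [(eSt h).symm_apply_apply] at h2
    refine h2.trans ?_
    have hc : CompactSpace (stabD (K := K) Q) :=
      isCompact_iff_compactSpace.1 (GP.stabD_closed Q).isCompact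
    exact (KR.big_perp (HP.basis_sub (HP.basis_K K)) inferInstance
      (hNo.preimage continuous_subtype_val) (KR.isBig_D N₀ (GP.stabD_closed Q)) (char_D h N₀)
      (LB.proRep_rho hρ (stabD (K := K) Q)) (LB.proRep_kap hκ kN hρ (stabD (K := K) Q))
      (fun x hx => hL hx)).symm

end cond

section fam

variable {E : Type w} [NormedField E] [NormedAlgebra ℚ_[2] E] {n : ℕ}
  {ρ : AbsGal K →* Matrix (Fin n) (Fin n) E} {b : Matrix (Fin n) (Fin n) E}

/-- THE FAMILY OF LOCAL CONDITIONS. -/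
noncomputable def famL (c : AlgebraicClosure K ≃+* AlgebraicClosure K) (κ : AbsGal K →* AbsGal K)
    (T : Finset ℕ) (P : ℕ → Ideal (𝓞 (AlgebraicClosure K))) (N₀ : Subgroup (AbsGal K))
    (ρ : AbsGal K →* Matrix (Fin n) (Fin n) E) (b : Matrix (Fin n) (Fin n) E)
    (h2 : stb (P 2) ≤ (iK K).range) (L : Submodule E (stabD (K := K) (P 2) → Fin n → E)) :
    ∀ i : Option (Option T), Submodule E (HQ c P i → Fin (n + n) → E)
  | none => zV (SQ c P (N₀.map (iK K)) none) (fun d => rho2 (iK K) c κ (fun g => ρ g) (GA.jQ c P none d))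
  | some none => speQ h2 N₀ κ ρ b L
  | some (some l) => urV (SQ c P (N₀.map (iK K)) (some (some l))) ((inr (P l)).subgroupOf (stb (P l)))
      (fun d => rho2 (iK K) c κ (fun g => ρ g) (GA.jQ c P (some (some l)) d))

/-- the restriction of a continuous cocycle -/
theorem res_zv {Y : (AlgebraicClosure K ≃+* AlgebraicClosure K) → Fin (n + n) → E}
    {R : (AlgebraicClosure K ≃+* AlgebraicClosure K) → Matrix (Fin (n + n)) (Fin (n + n)) E}
    (hY : ZV (sysQ T N₀) R Y) (i : Option (Option T)) :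
    ZV (SQ c P (N₀.map (iK K)) i) (fun d => R (GA.jQ c P i d)) (fun d => Y (GA.jQ c P i d)) := by
  refine ⟨fun ε hε => ?_, fun s t => ?_⟩
  · obtain ⟨W, hW, h1⟩ := hY.1 ε hε
    obtain ⟨W', hW', h2⟩ := GA.jsmQ c P (N₀.map (iK K)) i W hW
    refine ⟨W', hW', fun g w hw => ?_⟩
    beta_reduce
    rw [map_mul]
    exact h1 _ _ (h2 w hw)
  · beta_reduce
    rw [map_mul]
    exact hY.2 _ _

/-- THE SELMER SPACES AGREE. -/
theorem selBK_eq [FiniteDimensional ℚ_[2] E] (hK : IsQ K D s) (hc : PA.IsConj s c)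
    (hκ : ∀ (σ : AbsGal K) (x : AlgebraicClosure K), κ σ x = c (σ (c x)))
    (hD : D.primeFactors ⊆ T) (hP : IsP T P)
    (hθ : ∀ p ∈ D.primeFactors, ∃ m : AbsGal K, iK K m * c ∈ inr (P p)) (hNn : N₀.Normal)
    (hNo : IsOpen (N₀ : Set (AbsGal K))) (kN : ∀ g ∈ N₀, κ g ∈ N₀)
    (hNI : ∀ σ ∈ inT K T, σ ∈ N₀) (hρ : Gn.ConjDual 2 N₀ (inT K T) (Parity.cyclo E) κ ρ b)
    (h2 : stb (P 2) ≤ (iK K).range) {L : Submodule E (stabD (K := K) (P 2) → Fin n → E)}
    (hL : L ≤ Parity.cocycles (fun σ : stabD (K := K) (P 2) => ρ σ)) :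
    Parity.selmerBK (Parity.inertiaOffTwo K) (Parity.cyclo E) κ ρ b (stabD (P 2)) L =
      selK (two_K hK hc hκ) (sysQ T N₀) (GA.jQ c P) (fun g => ρ g)
        (famL c κ T P N₀ ρ b h2 L) := by
  have X := two_K hK hc hκ
  have hκc : Continuous κ := PA.kappa_continuous hc.sq hκ
  have hcoc := fun x => coc_iff (x := x) hK hc hκ hD hNn hNo kN hNI hρ
  ext x
  constructor
  · rintro ⟨h1, hI, hx2, hx2'⟩
    have hx := (hcoc x).2 ⟨h1, fun σ hσ => by
      have hσ' := hσ
      obtain ⟨Q, hQ, hQ2, hQT, hσQ⟩ := hσ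
      obtain ⟨v, hv⟩ := hI _ ⟨Q, hQ, hQ2, rfl⟩
      rw [hv σ hσQ, hρ.unram σ hσ', one_mulVec, sub_self]⟩
    have hind : ZV (sysQ T N₀) (rho2 (iK K) c κ (fun g => ρ g)) (ind (iK K) c κ x) :=
      ⟨QV.ind_N1 X (dn hK hc hκ hD kN) hx.1, QV.ind_coc X hx.2⟩
    refine ⟨hx.1, hx.2, fun i => ?_⟩
    match i with
    | none => exact res_zv hind none
    | some none => exact (spe_iff X h2 hκc hNn hNo kN hρ hL x).2 ⟨hx2, hx2'⟩
    | some (some l) =>
      refine ⟨res_zv hind (some (some l)), ?_⟩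
      obtain ⟨v, hv⟩ := (cob_over (ρ := ρ) hK hc hκ hP hθ l.2 hx.2).2 fun Q hQ hlQ => by
        refine hI _ ⟨Q, hQ, fun h2Q => ?_, rfl⟩
        exact KS.two_notMem (hP.prime l l.2) (hP.odd l l.2) hQ hlQ h2Q
      exact ⟨v, fun d hd => hv _ hd⟩
  · rintro ⟨h1, h1', hi⟩
    have hx := (hcoc x).1 ⟨h1, h1'⟩
    obtain ⟨hx2, hx2'⟩ := (spe_iff X h2 hκc hNn hNo kN hρ hL x).1 (hi (some none))
    refine ⟨hx.1, ?_, hx2, hx2'⟩
    rintro _ ⟨Q, hQ, hQ2, rfl⟩
    by_cases h4 : ∀ l ∈ T, (l : 𝓞 (AlgebraicClosure K)) ∉ Q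
    · refine ⟨0, fun σ hσ => ?_⟩
      rw [mulVec_zero, sub_zero]
      exact hx.2 σ ⟨Q, hQ, hQ2, h4, hσ⟩
    · push Not at h4
      obtain ⟨l, hl, hlQ⟩ := h4
      obtain ⟨v, hv⟩ := (hi (some (some ⟨l, hl⟩))).2
      exact (cob_over (ρ := ρ) hK hc hκ hP hθ hl h1').1
        ⟨v, fun σ hσ => hv ⟨σ, HP.inr_le_stb _ hσ⟩ hσ⟩ Q hQ hlQ

end fam

end Pool.Agent.Work.MP_787500_nt.QW
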