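import Mathlib
import Pool.Agent.Work.MP_787500_nt.QW.Fam
import Pool.Agent.Work.MP_787500_nt.QV.LagN
import Pool.Agent.Work.MP_787500_nt.QV.Grow
import Pool.Agent.Work.MP_787500_nt.KR.L20
import Pool.Agent.Work.MP_787500_nt.GP.L20a_Dim
import Pool.Agent.Work.MP_787500_nt.GP.L03_Ring

/-!
The family of local conditions for `V × V` over the rational numbers satisfies the hypotheses of the parity theorem
`QV.parity_E`.

* `qrepK`: the quadratic representation; `famL_zv`, `famL_fd`, `famL_cob`, `famL_lag`.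
* `parity_BK`: THE PARITY of the Selmer space with the condition of Bloch and Kato, from the parity at the level one.
-/

set_option autoImplicit false
set_option linter.unusedSectionVars false

namespace Pool.Agent.Work.MP_787500_nt.QW

open Matrix NumberField
open Pool.Agent.Work.MP_787500_nt.GP (A0 OE bil Lat inT stabD cupE EvPow actN lamN MN)
open Pool.Agent.Work.MP_787500_nt.KR (FSys IsChar ZV zV LocRep LocD IsBig fullC fullD fullK fullQ big Opn PerpV
  perpSub)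
open Pool.Agent.Work.MP_787500_nt.PA (toE cyc)
open Pool.Agent.Work.MP_787500_nt.HP (IsQ Spl IsP inr stb cyQ OpnQ)
open Pool.Agent.Work.MP_787500_nt.KS (iK)
open Pool.Agent.Work.MP_787500_nt.QS (Two Lag)
open Pool.Agent.Work.MP_787500_nt.QV (ind rho2 N1e selK selE selNQ spE prE QRep T2 J2 blk beN laN)
open Pool.Agent.Work.MP_787500_nt.QU (urV)
open Pool.Agent.Work.MP_787500_nt.GA (HQ SQ)

universe u w

section general

variable {E : Type w} [NormedField E] [NormedAlgebra ℚ_[2] E] {n : ℕ} {G Γ : Type*} [Group G] [Group Γ]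
  {e : G →* Γ} {c : Γ} {κ : G →* G} {ρ : G → Matrix (Fin n) (Fin n) E} {P : Type*} [Group P]
  {TP : FSys P} {j : P →* G} {jp : P →* Γ}

/-- continuous cocycles with values in `V × V` at a split place -/
theorem zv_pr (X : Two e c κ) (hj : ∀ d, jp d = e (j d)) {Y : P → Fin (n + n) → E}
    (h1 : ZV TP (fun d => ρ (j d)) fun d => QV.v1 (Y d))
    (h2 : ZV TP (fun d => ρ (κ (j d))) fun d => QV.v2 (Y d)) :
    ZV TP (fun d => rho2 e c κ ρ (jp d)) Y := by
  refine ⟨fun ε hε => ?_, fun s t => ?_⟩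
  · obtain ⟨W, hW, k1⟩ := h1.1 ε hε
    obtain ⟨W', hW', k2⟩ := h2.1 ε hε
    refine ⟨W ⊓ W', TP.inf hW hW', fun g w hw => ?_⟩
    rw [QV.norm_v, QV.v1_sub, QV.v2_sub]
    exact max_lt (k1 g w hw.1) (k2 g w hw.2)
  · beta_reduce
    rw [hj]
    apply QV.ap_ext
    · rw [QV.v1_add, QV.v1_rho X]
      exact h1.2 s t
    · rw [QV.v2_add, QV.v2_rho X]
      exact h2.2 s t

/-- restriction of a representation -/
theorem locRep_res {S : FSys Γ} {χ : Γ → ℤ_[2]} {T : Submodule (OE E) (Fin n → E)}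
    {b : Matrix (Fin n) (Fin n) E} {A A' : Γ → Matrix (Fin n) (Fin n) E} (hr : LocRep S χ T b A A')
    (hj : ∀ W, S.mem W → ∃ W', TP.mem W' ∧ ∀ w ∈ W', jp w ∈ W) :
    LocRep TP (fun d => χ (jp d)) T b (fun d => A (jp d)) (fun d => A' (jp d)) where
  one := by
    have h1 := hr.one
    rw [map_one]
    exact h1
  mul s u := by
    have h1 := hr.mul (jp s) (jp u)
    rw [map_mul]
    exact h1
  one' := by
    have h1 := hr.one'
    rw [map_one]
    exact h1
  mul' s u := by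
    have h1 := hr.mul' (jp s) (jp u)
    rw [map_mul]
    exact h1
  st d := hr.st _
  st' d := hr.st' _
  sm ε hε := by
    obtain ⟨W, hW, h1⟩ := hr.sm ε hε
    obtain ⟨W', hW', h2⟩ := hj W hW
    exact ⟨W', hW', fun v hv x => h1 _ (h2 v hv) x⟩
  sm' ε hε := by
    obtain ⟨W, hW, h1⟩ := hr.sm' ε hε
    obtain ⟨W', hW', h2⟩ := hj W hW
    exact ⟨W', hW', fun v hv x => h1 _ (h2 v hv) x⟩
  dual d x y := hr.dual _ x y

end general

variable {K : Type u} [Field K] [NumberField K] {D : ℕ} {s : K}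
  {c : AlgebraicClosure K ≃+* AlgebraicClosure K} {κ : AbsGal K →* AbsGal K} {T : Finset ℕ}
  {P : ℕ → Ideal (𝓞 (AlgebraicClosure K))} {N₀ : Subgroup (AbsGal K)}
  {E : Type w} [NormedField E] [NormedAlgebra ℚ_[2] E] [FiniteDimensional ℚ_[2] E] {n : ℕ}
  {ρ : AbsGal K →* Matrix (Fin n) (Fin n) E} {b : Matrix (Fin n) (Fin n) E}
  {l : OE E} {t : E →ₗ[ℚ_[2]] ℚ_[2]} {L₀ : Submodule (OE E) (Fin n → E)}

/-- the arithmetic situation -/
structure Ari (s : K) (c : AlgebraicClosure K ≃+* AlgebraicClosure K) (κ : AbsGal K →* AbsGal K) (D : ℕ)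
    (T : Finset ℕ) (P : ℕ → Ideal (𝓞 (AlgebraicClosure K))) (N₀ : Subgroup (AbsGal K)) : Prop where
  hK : IsQ K D s
  hc : PA.IsConj s c
  hκ : ∀ (σ : AbsGal K) (x : AlgebraicClosure K), κ σ x = c (σ (c x))
  hD : D.primeFactors ⊆ T
  hP : IsP T P
  hθ : ∀ p ∈ D.primeFactors, ∃ m : AbsGal K, iK K m * c ∈ inr (P p)
  nor : N₀.Normal
  opn : IsOpen (N₀ : Set (AbsGal K))
  kN : ∀ g ∈ N₀, κ g ∈ N₀
  NI : ∀ σ ∈ inT K T, σ ∈ N₀

theorem Ari.two (h : Ari s c κ D T P N₀) : Two (iK K) c κ := two_K h.hK h.hc h.hκ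

theorem Ari.h2 (h : Ari s c κ D T P N₀) : stb (P 2) ≤ (iK K).range := by
  intro g hg
  exact HP.stb_le _ h.hK (l := 2) (Or.inl rfl) (h.hP.isPrime 2 (Or.inr rfl))
    (by exact_mod_cast h.hP.mem 2 (Or.inr rfl)) hg

theorem Ari.opnQ (h : Ari s c κ D T P N₀) :
    KR.Opn (fullQ (AlgebraicClosure K) (T : Set ℕ)) (N₀.map (iK K)) := by
  obtain ⟨W, hW, h4⟩ := KS.push (T := T) h.hK h.hc h.hκ (W₁ := N₀) ⟨h.nor, h.opn, h.NI⟩
  rw [KS.sQ, Finset.union_eq_left.2 h.hD] at hW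
  refine ⟨W, hW, fun w hw => ?_⟩
  obtain ⟨n, hn, rfl⟩ := h4 w hw
  exact ⟨n, hn, rfl⟩

theorem Ari.norQ (h : Ari s c κ D T P N₀) : (N₀.map (iK K)).Normal :=
  QF.map_normal h.hK h.hc h.hκ h.nor h.kN

theorem cyQ_c (hK : IsQ K D s) (hc : PA.IsConj s c) : cyQ c = -1 :=
  HP.cyQ_conj hc.sq (QF.exists_conj_ne hK hc)

/-- the representation on the lattice -/
theorem Ari.rep (h : Ari s c κ D T P N₀)
    (hρ : Gn.ConjDual 2 N₀ (inT K T) (Parity.cyclo E) κ ρ b)
    (hst : ∀ g, ∀ x ∈ L₀, ρ g *ᵥ x ∈ L₀) :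
    LocRep (big (fullK (K := K) T) N₀) cyc L₀ b (fun g => ρ g) (fun g => ρ (κ g)) :=
  KR.locRep_glob (KR.base_K h.nor h.opn h.NI) (KR.isBig_K T N₀)
    (fun _ hW => ⟨_, QF.kap_big h.hc h.hκ h.kN hW, fun _ hv => hv⟩) hρ hst

/-- the quadratic representation -/
theorem Ari.qrep (h : Ari s c κ D T P N₀)
    (hρ : Gn.ConjDual 2 N₀ (inT K T) (Parity.cyclo E) κ ρ b) (hl : Lat b l t L₀)
    (hst : ∀ g, ∀ x ∈ L₀, ρ g *ᵥ x ∈ L₀)
    (hm : ∀ σ τ : AlgebraicClosure K ≃+* AlgebraicClosure K, cyQ (σ * τ) = cyQ σ * cyQ τ) :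
    QRep (sysQ T N₀) cyQ l t (T2 L₀) (blk 0 b 0 0) (blk 0 b b 0) (J2 E n)
      (rho2 (iK K) c κ fun g => ρ g) :=
  QV.qrep2 h.two (fun g => HP.cyQ_emb _ g) (cyQ_c h.hK h.hc) hm
    (fun _ hW => up h.hK h.hc h.hκ h.hD h.kN hW) hl (h.rep hρ hst)

section fam

variable {ivF : ∀ w : Option T, (stb (HP.PP P w) → stb (HP.PP P w) → A0) → A0}
  {L : Submodule E (stabD (K := K) (P 2) → Fin n → E)}

/-- the local cocycles at 2 over `K` and over the rational numbers -/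
theorem zv_two (h : Ari s c κ D T P N₀) (hρ : Gn.ConjDual 2 N₀ (inT K T) (Parity.cyclo E) κ ρ b)
    (hL : L ≤ Parity.cocycles (fun σ : stabD (K := K) (P 2) => ρ σ)) :
    ∀ X ∈ L.comap (LinearMap.funLeft E (Fin n → E) (eSt h.h2)),
      ZV (big (fullC (stb (P 2))) ((N₀.map (iK K)).subgroupOf (stb (P 2))))
        (fun d => ρ (((eSt h.h2).symm d : stabD (K := K) (P 2)) : AbsGal K)) X := by
  intro X hX
  have hc : CompactSpace (stabD (K := K) (P 2)) :=
    isCompact_iff_compactSpace.1 (GP.stabD_closed (P 2)).isCompact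
  have hNn := h.nor
  have h1 : ZV (big (fullD (stabD (K := K) (P 2))) (N₀.subgroupOf (stabD (P 2))))
      (fun d : stabD (K := K) (P 2) => ρ d) (fun d => X (eSt h.h2 d)) :=
    (QU.zv_iff inferInstance (h.opn.preimage continuous_subtype_val)
      (KR.isBig_D N₀ (GP.stabD_closed (P 2))) (LB.proRep_rho hρ (stabD (K := K) (P 2)))).1 (hL hX)
  have h2 := QU.zv_iso (eSt_sys h.h2 N₀) (x := X)
    (A := fun d => ρ (((eSt h.h2).symm d : stabD (K := K) (P 2)) : AbsGal K))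
  simp only [(eSt h.h2).symm_apply_apply] at h2
  exact h2.1 h1

/-- the homomorphism of the decomposition group at 2 over the rational numbers to the group of `K` -/
noncomputable def j2 (h : stb (P 2) ≤ (iK K).range) : stb (P 2) →* AbsGal K :=
  (stabD (K := K) (P 2)).subtype.comp (eSt h).symm.toMonoidHom

theorem j2_e (h : stb (P 2) ≤ (iK K).range) (d : stb (P 2)) :
    GA.jQ c P (some (none : Option T)) d = iK K (j2 h d) := (eSt_symm h d).symm

theorem j2_cont (h : Ari s c κ D T P N₀) (W : Subgroup (AbsGal K))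
    (hW : (big (fullK (K := K) T) N₀).mem W) :
    ∃ W', (SQ c P (N₀.map (iK K)) (some (none : Option T))).mem W' ∧ ∀ w ∈ W', j2 h.h2 w ∈ W := by
  obtain ⟨V, hV, h1⟩ := up h.hK h.hc h.hκ h.hD h.kN hW
  obtain ⟨V', hV', h2⟩ := GA.jsmQ c P (N₀.map (iK K)) (some (none : Option T)) V hV
  refine ⟨V', hV', fun w hw => ?_⟩
  obtain ⟨g, hg, h3⟩ := h1 _ (h2 w hw)
  rw [j2_e h.h2] at h3
  rwa [← HP.emb_inj _ h3]

theorem famL_zv (h : Ari s c κ D T P N₀) (hρ : Gn.ConjDual 2 N₀ (inT K T) (Parity.cyclo E) κ ρ b)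
    (hL : L ≤ Parity.cocycles (fun σ : stabD (K := K) (P 2) => ρ σ)) (i : Option (Option T)) :
    ∀ X ∈ famL c κ T P N₀ ρ b h.h2 L i, ZV (SQ c P (N₀.map (iK K)) i)
      (fun d => rho2 (iK K) c κ (fun g => ρ g) (GA.jQ c P i d)) X := by
  intro X hX
  match i with
  | none => exact hX
  | some none =>
    exact zv_pr h.two (j := j2 h.h2) (j2_e h.h2) (zv_two h hρ hL _ hX.1) hX.2.1
  | some (some l) => exact hX.1

theorem famL_fd (h : Ari s c κ D T P N₀) (hρ : Gn.ConjDual 2 N₀ (inT K T) (Parity.cyclo E) κ ρ b)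
    (hL : L ≤ Parity.cocycles (fun σ : stabD (K := K) (P 2) => ρ σ))
    (HL : ∀ i, LocD.{w} (SQ c P (N₀.map (iK K)) i) (fun d => cyQ (GA.jQ c P i d)) (GA.iQ c P ivF i))
    (i : Option (Option T)) : FiniteDimensional E (famL c κ T P N₀ ρ b h.h2 L i) := by
  have h1 : FiniteDimensional E (zV (SQ c P (N₀.map (iK K)) i)
      (fun d => rho2 (iK K) c κ (fun g => ρ g) (GA.jQ c P i d))) := by
    refine KR.zV_fd (HL i).gens ?_ fun s t => ?_
    · rw [map_one]
      exact QV.rho2_one h.two (map_one ρ)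
    · rw [map_mul]
      exact QV.rho2_mul h.two (fun s t => map_mul ρ s t) _ _
  have h2 : famL c κ T P N₀ ρ b h.h2 L i ≤ zV (SQ c P (N₀.map (iK K)) i)
      (fun d => rho2 (iK K) c κ (fun g => ρ g) (GA.jQ c P i d)) := fun X hX => famL_zv h hρ hL i X hX
  exact Submodule.finiteDimensional_of_le h2

theorem famL_cob (h : Ari s c κ D T P N₀) (hρ : Gn.ConjDual 2 N₀ (inT K T) (Parity.cyclo E) κ ρ b)
    (hl : Lat b l t L₀) (hst : ∀ g, ∀ x ∈ L₀, ρ g *ᵥ x ∈ L₀)
    (hm : ∀ σ τ : AlgebraicClosure K ≃+* AlgebraicClosure K, cyQ (σ * τ) = cyQ σ * cyQ τ)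
    (hL : L ≤ Parity.cocycles (fun σ : stabD (K := K) (P 2) => ρ σ))
    (hL0 : Parity.coboundaries (fun σ : stabD (K := K) (P 2) => ρ σ) ≤ L) (i : Option (Option T))
    (v : Fin (n + n) → E) :
    (fun d => rho2 (iK K) c κ (fun g => ρ g) (GA.jQ c P i d) *ᵥ v - v) ∈
      famL c κ T P N₀ ρ b h.h2 L i := by
  have hq := h.qrep hρ hl hst hm
  have hz : ZV (SQ c P (N₀.map (iK K)) i)
      (fun d => rho2 (iK K) c κ (fun g => ρ g) (GA.jQ c P i d))
      (fun d => rho2 (iK K) c κ (fun g => ρ g) (GA.jQ c P i d) *ᵥ v - v) :=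
    QV.zv_cob hq.lat.symm (locRep_res hq.rep (GA.jsmQ c P (N₀.map (iK K)) i)) v
  match i, hz with
  | none, hz => exact hz
  | some (some l), hz => exact ⟨hz, v, fun d _ => rfl⟩
  | some none, hz =>
    have hr := QV.locRep_j (j := j2 h.h2) (h.rep hρ hst) (j2_cont (c := c) h)
    have e1 : ∀ d : stb (P 2), GA.jQ c P (some (none : Option T)) d = iK K (j2 h.h2 d) :=
      j2_e h.h2
    refine QV.mem_prE.2 ⟨?_, ?_⟩
    · have h3 : (fun d : stb (P 2) => QV.v1 (rho2 (iK K) c κ (fun g => ρ g)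
          (GA.jQ c P (some (none : Option T)) d) *ᵥ v - v)) =
          fun d => ρ (j2 h.h2 d) *ᵥ QV.v1 v - QV.v1 v := by
        funext d
        rw [e1, QV.v1_sub, QV.v1_rho h.two]
      have k1 : (fun d : stb (P 2) => ρ (j2 h.h2 d) *ᵥ QV.v1 v - QV.v1 v) ∈
          L.comap (LinearMap.funLeft E (Fin n → E) (eSt h.h2)) := by
        show (fun d : stabD (K := K) (P 2) => ρ (((eSt h.h2).symm (eSt h.h2 d) :
          stabD (K := K) (P 2)) : AbsGal K) *ᵥ QV.v1 v - QV.v1 v) ∈ L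
        simp only [(eSt h.h2).symm_apply_apply]
        exact hL0 ⟨QV.v1 v, fun d => rfl⟩
      rw [← h3] at k1
      exact k1
    · have h3 : (fun d : stb (P 2) => QV.v2 (rho2 (iK K) c κ (fun g => ρ g)
          (GA.jQ c P (some (none : Option T)) d) *ᵥ v - v)) =
          fun d => ρ (κ (j2 h.h2 d)) *ᵥ QV.v2 v - QV.v2 v := by
        funext d
        rw [e1, QV.v2_sub, QV.v2_rho h.two]
      have k1 := KR.cob_perpV hr (zv_two h hρ hL) (QV.v2 v)
      rw [← h3] at k1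
      exact k1

theorem famL_lag [IsLocalRing (OE E)] (h : Ari s c κ D T P N₀)
    (hρ : Gn.ConjDual 2 N₀ (inT K T) (Parity.cyclo E) κ ρ b)
    (hl : Lat b l t L₀) (hst : ∀ g, ∀ x ∈ L₀, ρ g *ᵥ x ∈ L₀)
    (hχ : IsChar (sysQ T N₀) cyQ)
    (hL : L ≤ Parity.cocycles (fun σ : stabD (K := K) (P 2) => ρ σ))
    (hL0 : Parity.coboundaries (fun σ : stabD (K := K) (P 2) => ρ σ) ≤ L)
    (HL : ∀ i, LocD.{w} (SQ c P (N₀.map (iK K)) i) (fun d => cyQ (GA.jQ c P i d)) (GA.iQ c P ivF i))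
    (N : ℕ) (i : Option (Option T)) :
    Lag (SQ c P (N₀.map (iK K)) i) (GA.iQ c P ivF i)
      (fun d => actN l N (rho2 (iK K) c κ fun g => ρ g) (h.qrep hρ hl hst hχ.mul).rep.st (GA.jQ c P i d))
      (beN (h.qrep hρ hl hst hχ.mul) N)
      (fun a d => laN cyQ l t (blk 0 b 0 0) (rho2 (iK K) c κ fun g => ρ g) (T2 L₀) N a
        (GA.jQ c P i d))
      (lamN (T2 L₀) l N (famL c κ T P N₀ ρ b h.h2 L i)) := by
  have hq := h.qrep hρ hl hst hχ.mul
  have hr := locRep_res hq.rep (GA.jsmQ c P (N₀.map (iK K)) i)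
  match i, hr with
  | none, hr =>
    exact QV.lag_N (HL none) hq hχ (GA.jsmQ c P (N₀.map (iK K)) none)
      (QU.lagV_inf h.hc.sq hr hq.jj) N
  | some (some k), hr =>
    have h3 := h.norQ
    exact QV.lag_N (HL (some (some k))) hq hχ (GA.jsmQ c P (N₀.map (iK K)) (some (some k)))
      (QU.lagV_odd (HP.alg_closure K) (h.hP.prime k k.2) (h.hP.odd k k.2)
        (h.hP.isPrime k (Or.inl k.2)) (h.hP.mem k (Or.inl k.2)) inferInstance
        (GA.opn_fullC h.opnQ _) hr hq.jj (QU.lat_det hq.lat)).1 N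
  | some none, hr =>
    have e1 : ∀ d : stb (P 2), GA.jQ c P (some (none : Option T)) d = iK K (j2 h.h2 d) :=
      j2_e h.h2
    have e2 : (fun d : stb (P 2) => cyQ (GA.jQ c P (some (none : Option T)) d)) =
        fun d => cyc (j2 h.h2 d) := by
      funext d
      rw [e1, HP.cyQ_emb]
    have HL' := HL (some none)
    have HL2 : LocD.{w} (SQ c P (N₀.map (iK K)) (some (none : Option T)))
        (fun d : stb (P 2) => cyc (j2 h.h2 d)) (GA.iQ c P ivF (some none)) := e2 ▸ HL'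
    exact QV.lag_sp (j := j2 h.h2) h.two (fun g => HP.cyQ_emb _ g) (cyQ_c h.hK h.hc) hχ.mul HL2 hl
      (h.rep hρ hst) (j2_cont (c := c) h) (zv_two h hρ hL) (fun v => by
        show (fun d : stabD (K := K) (P 2) => ρ (((eSt h.h2).symm (eSt h.h2 d) :
          stabD (K := K) (P 2)) : AbsGal K) *ᵥ v - v) ∈ L
        simp only [(eSt h.h2).symm_apply_apply]
        exact hL0 ⟨v, fun d => rfl⟩) hq e1 N

end fam

end Pool.Agent.Work.MP_787500_nt.QW
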