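import Mathlib
import Pool.Agent.Work.MP_787500_nt.QW.Hyp

/-!
THE PARITY of the Selmer space with the condition of Bloch and Kato, from the parity at the level one.
-/

set_option autoImplicit false
set_option linter.unusedSectionVars false

namespace Pool.Agent.Work.MP_787500_nt.QW

open Matrix NumberField
open Pool.Agent.Work.MP_787500_nt.GP (A0 OE bil Lat inT stabD cupE EvPow actN lamN MN)
open Pool.Agent.Work.MP_787500_nt.KR (FSys IsChar ZV zV LocRep LocD IsBig fullC fullD fullK fullQ big Opn PerpV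
  perpSub)
open Pool.Agent.Work.MP_787500_nt.PA (toE cyc)
open Pool.Agent.Work.MP_787500_nt.HP (IsQ Spl IsP inr stb cyQ OpnQ)
open Pool.Agent.Work.MP_787500_nt.KS (iK)
open Pool.Agent.Work.MP_787500_nt.QS (Two Lag)
open Pool.Agent.Work.MP_787500_nt.QV (ind rho2 N1e selK selE selNQ spE prE QRep T2 J2 blk beN laN)
open Pool.Agent.Work.MP_787500_nt.QU (urV)
open Pool.Agent.Work.MP_787500_nt.GA (HQ SQ)

universe u w

variable {K : Type u} [Field K] [NumberField K] {D : ℕ} {s : K}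
  {c : AlgebraicClosure K ≃+* AlgebraicClosure K} {κ : AbsGal K →* AbsGal K} {T : Finset ℕ}
  {P : ℕ → Ideal (𝓞 (AlgebraicClosure K))} {N₀ : Subgroup (AbsGal K)}
  {E : Type w} [NormedField E] [NormedAlgebra ℚ_[2] E] [FiniteDimensional ℚ_[2] E] {n : ℕ}
  {ρ : AbsGal K →* Matrix (Fin n) (Fin n) E} {b : Matrix (Fin n) (Fin n) E}
  {l : OE E} {t : E →ₗ[ℚ_[2]] ℚ_[2]} {L₀ : Submodule (OE E) (Fin n → E)}
  {ivF : ∀ w : Option T, (stb (HP.PP P w) → stb (HP.PP P w) → A0) → A0}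
  {L : Submodule E (stabD (K := K) (P 2) → Fin n → E)}

/-- `ind` of a coboundary is a coboundary -/
theorem ind_cb (h : Ari s c κ D T P N₀) (v : Fin n → E) :
    ind (iK K) c κ (fun g => ρ g *ᵥ v - v) =
      fun σ => rho2 (iK K) c κ (fun g => ρ g) σ *ᵥ QV.ap v v - QV.ap v v := by
  have X := h.two
  funext σ
  rcases X.cases σ with ⟨g, rfl⟩ | ⟨g, rfl⟩
  · rw [QV.ind_e X]
    apply QV.ap_ext
    · rw [QV.v1_ap, QV.v1_sub, QV.v1_rho X, QV.v1_ap]
    · rw [QV.v2_ap, QV.v2_sub, QV.v2_rho X, QV.v2_ap]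
  · rw [QV.ind_ec X]
    apply QV.ap_ext
    · rw [QV.v1_ap, QV.v1_sub, QV.v1_rhoc X, QV.v1_ap, QV.v2_ap]
    · rw [QV.v2_ap, QV.v2_sub, QV.v2_rhoc X, QV.v1_ap, QV.v2_ap]

theorem cob_le (h : Ari s c κ D T P N₀) (hρ : Gn.ConjDual 2 N₀ (inT K T) (Parity.cyclo E) κ ρ b)
    (hl : Lat b l t L₀) (hst : ∀ g, ∀ x ∈ L₀, ρ g *ᵥ x ∈ L₀)
    (hm : ∀ σ τ : AlgebraicClosure K ≃+* AlgebraicClosure K, cyQ (σ * τ) = cyQ σ * cyQ τ)
    (hL : L ≤ Parity.cocycles (fun σ : stabD (K := K) (P 2) => ρ σ))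
    (hL0 : Parity.coboundaries (fun σ : stabD (K := K) (P 2) => ρ σ) ≤ L) :
    Parity.coboundaries ρ ≤ Parity.selmerBK (Parity.inertiaOffTwo K) (Parity.cyclo E) κ ρ b
      (stabD (P 2)) L := by
  rw [selBK_eq h.hK h.hc h.hκ h.hD h.hP h.hθ h.nor h.opn h.kN h.NI hρ h.h2 hL]
  rintro x ⟨v, hv⟩
  obtain rfl : x = fun g => ρ g *ᵥ v - v := funext hv
  have h1 := (coc_iff (x := fun g => ρ g *ᵥ v - v) h.hK h.hc h.hκ h.hD h.nor h.opn h.kN h.NI hρ).2
    ⟨⟨(hρ.cont.matrix_mulVec continuous_const).sub continuous_const, fun s t => by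
      beta_reduce
      rw [map_mul, mulVec_sub, mulVec_mulVec]
      abel⟩, fun σ hσ => by
      rw [hρ.unram σ hσ, one_mulVec, sub_self]⟩
  refine ⟨h1.1, h1.2, fun i => ?_⟩
  rw [ind_cb h]
  exact famL_cob h hρ hl hst hm hL hL0 i (QV.ap v v)

theorem L_fd (h : Ari s c κ D T P N₀) (hρ : Gn.ConjDual 2 N₀ (inT K T) (Parity.cyclo E) κ ρ b)
    (hL : L ≤ Parity.cocycles (fun σ : stabD (K := K) (P 2) => ρ σ))
    (HL : ∀ i, LocD.{w} (SQ c P (N₀.map (iK K)) i) (fun d => cyQ (GA.jQ c P i d)) (GA.iQ c P ivF i)) :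
    FiniteDimensional E L := by
  have h1 : FiniteDimensional E (zV (SQ c P (N₀.map (iK K)) (some (none : Option T)))
      (fun d => ρ (j2 h.h2 d))) := by
    refine KR.zV_fd (HL (some none)).gens ?_ fun s t => ?_
    · exact (congrArg ρ (map_one (j2 h.h2))).trans (map_one ρ)
    · exact (congrArg ρ (map_mul (j2 h.h2) s t)).trans (map_mul ρ _ _)
  let φ : L →ₗ[E] zV (SQ c P (N₀.map (iK K)) (some (none : Option T))) (fun d => ρ (j2 h.h2 d)) :=
    { toFun := fun X => ⟨fun d => (X : stabD (K := K) (P 2) → Fin n → E) ((eSt h.h2).symm d),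
        zv_two h hρ hL _ (by
          show (fun d => (X : stabD (K := K) (P 2) → Fin n → E) ((eSt h.h2).symm (eSt h.h2 d))) ∈ L
          simp only [(eSt h.h2).symm_apply_apply]
          exact X.2)⟩
      map_add' := fun X Y => rfl
      map_smul' := fun a X => rfl }
  refine FiniteDimensional.of_injective φ fun X Y hXY => Subtype.ext (funext fun d => ?_)
  have h2 := congrFun (congrArg Subtype.val hXY) (eSt h.h2 d)
  have h3 : (X : stabD (K := K) (P 2) → Fin n → E) ((eSt h.h2).symm (eSt h.h2 d)) =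
      (Y : stabD (K := K) (P 2) → Fin n → E) ((eSt h.h2).symm (eSt h.h2 d)) := h2
  rwa [(eSt h.h2).symm_apply_apply] at h3

/-- THE PARITY. -/
theorem parity_BK [IsLocalRing (OE E)] (h : Ari s c κ D T P N₀)
    (hρ : Gn.ConjDual 2 N₀ (inT K T) (Parity.cyclo E) κ ρ b)
    (hl : Lat b l t L₀) (hst : ∀ g, ∀ x ∈ L₀, ρ g *ᵥ x ∈ L₀) {tr}
    (H : QS.HQ.{w} (sysQ T N₀) (SQ c P (N₀.map (iK K))) (GA.jQ c P) cyQ (GA.iQ c P ivF) tr)
    (hgen : ∃ X : Finset (AlgebraicClosure K ≃+* AlgebraicClosure K), ∀ U : Subgroup _,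
      (∃ W, (sysQ T N₀).mem W ∧ W ≤ U) → (∀ g ∈ X, g ∈ U) → U = ⊤)
    (HL : ∀ i, LocD.{w} (SQ c P (N₀.map (iK K)) i) (fun d => cyQ (GA.jQ c P i d)) (GA.iQ c P ivF i))
    (hL : L ≤ Parity.cocycles (fun σ : stabD (K := K) (P 2) => ρ σ))
    (hL0 : Parity.coboundaries (fun σ : stabD (K := K) (P 2) => ρ σ) ≤ L) {δ : ℕ}
    (hP : EvPow (Nat.card (IsLocalRing.ResidueField (OE E)))
      (Nat.card (selNQ (sysQ T N₀) (GA.jQ c P) (rho2 (iK K) c κ fun g => ρ g)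
        (famL c κ T P N₀ ρ b h.h2 L) (h.qrep hρ hl hst H.glob.char.mul) 1) *
        Nat.card (IsLocalRing.ResidueField (OE E)) ^ δ)) :
    FiniteDimensional E L ∧
      FiniteDimensional E (Parity.selmerBK (Parity.inertiaOffTwo K) (Parity.cyclo E) κ ρ b
        (stabD (P 2)) L) ∧
      Parity.coboundaries ρ ≤ Parity.selmerBK (Parity.inertiaOffTwo K) (Parity.cyclo E) κ ρ b
        (stabD (P 2)) L ∧
      Even (Parity.dimModulo (Parity.selmerBK (Parity.inertiaOffTwo K) (Parity.cyclo E) κ ρ b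
        (stabD (P 2)) L) (Parity.coboundaries ρ) +
        Module.finrank E (Parity.fixedBy (fun σ : AbsGal K => ρ σ)) + δ) := by
  have hq := h.qrep hρ hl hst H.glob.char.mul
  obtain ⟨h1, h2⟩ := QV.parity_E H hgen (h.qrep hρ hl hst H.glob.char.mul)
    (famL_fd h hρ hL HL) (famL_zv h hρ hL)
    (famL_cob h hρ hl hst H.glob.char.mul hL hL0)
    (famL_lag h hρ hl hst H.glob.char hL hL0 HL) hP
  obtain ⟨h3, h4⟩ := QV.finrank_selE (L := famL c κ T P N₀ ρ b h.h2 L) h.two (map_one ρ)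
    (dn h.hK h.hc h.hκ h.hD h.kN) (QV.zv_cob hq.lat.symm hq.rep)
    (famL_cob h hρ hl hst H.glob.char.mul hL hL0)
  have hle := cob_le h hρ hl hst H.glob.char.mul hL hL0
  have heq := selBK_eq h.hK h.hc h.hκ h.hD h.hP h.hθ h.nor h.opn h.kN h.NI hρ h.h2 hL
  have hfd : FiniteDimensional E (Parity.selmerBK (Parity.inertiaOffTwo K) (Parity.cyclo E) κ ρ b
      (stabD (P 2)) L) := by
    rw [heq]
    exact h3
  refine ⟨L_fd h hρ hL HL, hfd, hle, ?_⟩
  have h5 := GP.dimModulo_add hle hfd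
  have h6 := GP.finrank_cob (fun σ : AbsGal K => ρ σ)
  rw [h4] at h2
  rw [← heq] at h2
  have h7 : Module.finrank E (Parity.coboundaries ρ) + Module.finrank E
      (Parity.fixedBy (fun σ : AbsGal K => ρ σ)) = n := h6
  rw [Nat.even_iff] at h2 ⊢
  omega

end Pool.Agent.Work.MP_787500_nt.QW
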