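import Mathlib
import Pool.Agent.Work.MP_787500_nt.QW.Bk
import Pool.Agent.Work.MP_787500_nt.QU.Inst

/-!
The parity theorem for the arithmetic instance over the rational numbers.

* `Ari.of_inst`; `sel_dim`: the dimensions of the Selmer spaces; `parity_inst`: the parity from the parity at the
  level one.
-/

set_option autoImplicit false
set_option linter.unusedSectionVars false

namespace Pool.Agent.Work.MP_787500_nt.QW

open Matrix NumberField
open Pool.Agent.Work.MP_787500_nt.GP (A0 OE bil Lat inT stabD cupE EvPow actN lamN MN)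
open Pool.Agent.Work.MP_787500_nt.KR (FSys IsChar ZV zV LocRep LocD IsBig fullC fullD fullK fullQ big Opn PerpV
  perpSub)
open Pool.Agent.Work.MP_787500_nt.PA (toE cyc)
open Pool.Agent.Work.MP_787500_nt.HP (IsQ Spl IsP inr stb cyQ OpnQ)
open Pool.Agent.Work.MP_787500_nt.KS (iK)
open Pool.Agent.Work.MP_787500_nt.QS (Two Lag)
open Pool.Agent.Work.MP_787500_nt.QV (ind rho2 N1e selK selE selNQ spE prE QRep T2 J2 blk beN laN)
open Pool.Agent.Work.MP_787500_nt.QU (urV)
open Pool.Agent.Work.MP_787500_nt.GA (HQ SQ)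

universe u w

variable {K : Type u} [Field K] [NumberField K] {D : ℕ} {s : K}
  {c : AlgebraicClosure K ≃+* AlgebraicClosure K} {κ : AbsGal K →* AbsGal K} {T : Finset ℕ}
  {P : ℕ → Ideal (𝓞 (AlgebraicClosure K))} {N₀ : Subgroup (AbsGal K)}
  {iv ivF : ∀ w : Option T, (stb (HP.PP P w) → stb (HP.PP P w) → A0) → A0}
  {tr : (((AlgebraicClosure K ≃+* AlgebraicClosure K) → (AlgebraicClosure K ≃+* AlgebraicClosure K) →
      (AlgebraicClosure K ≃+* AlgebraicClosure K) → A0) ×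
      (∀ i : Option (Option T), HQ c P i → HQ c P i → A0)) →+ A0}

theorem ari_inst (I : QU.Inst.{u, w} s c κ D T P N₀ iv ivF tr) : Ari s c κ D T P N₀ where
  hK := I.hK
  hc := I.hc
  hκ := I.hκ
  hD := I.hD
  hP := I.hP
  hθ := fun _ hp => I.theta hp
  nor := I.nor
  opn := I.mem.2.1
  kN := I.kN
  NI := I.mem.2.2

variable {E : Type w} [NormedField E] [NormedAlgebra ℚ_[2] E] [FiniteDimensional ℚ_[2] E] {n : ℕ}
  {ρ : AbsGal K →* Matrix (Fin n) (Fin n) E} {b : Matrix (Fin n) (Fin n) E}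
  {l : OE E} {t : E →ₗ[ℚ_[2]] ℚ_[2]} {L₀ : Submodule (OE E) (Fin n → E)}
  {L : Submodule E (stabD (K := K) (P 2) → Fin n → E)}

/-- THE DIMENSIONS. -/
theorem sel_dim (I : QU.Inst.{u, w} s c κ D T P N₀ iv ivF tr)
    (hρ : Gn.ConjDual 2 N₀ (inT K T) (Parity.cyclo E) κ ρ b)
    (hl : Lat b l t L₀) (hst : ∀ g, ∀ x ∈ L₀, ρ g *ᵥ x ∈ L₀)
    (hL : L ≤ Parity.cocycles (fun σ : stabD (K := K) (P 2) => ρ σ))
    (hL0 : Parity.coboundaries (fun σ : stabD (K := K) (P 2) => ρ σ) ≤ L) :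
    FiniteDimensional E L ∧
      FiniteDimensional E (selE (sysQ T N₀) (GA.jQ c P) (rho2 (iK K) c κ fun g => ρ g)
        (famL c κ T P N₀ ρ b (ari_inst I).h2 L)) ∧
      FiniteDimensional E (Parity.selmerBK (Parity.inertiaOffTwo K) (Parity.cyclo E) κ ρ b
        (stabD (P 2)) L) ∧
      Parity.coboundaries ρ ≤ Parity.selmerBK (Parity.inertiaOffTwo K) (Parity.cyclo E) κ ρ b
        (stabD (P 2)) L ∧
      Module.finrank E (selE (sysQ T N₀) (GA.jQ c P) (rho2 (iK K) c κ fun g => ρ g)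
          (famL c κ T P N₀ ρ b (ari_inst I).h2 L)) +
          Module.finrank E (Parity.fixedBy (fun σ : AbsGal K => ρ σ)) =
        Parity.dimModulo (Parity.selmerBK (Parity.inertiaOffTwo K) (Parity.cyclo E) κ ρ b
          (stabD (P 2)) L) (Parity.coboundaries ρ) + 2 * n := by
  have h := ari_inst I
  have hm := I.glob.glob.char.mul
  have hq := h.qrep hρ hl hst hm
  have HL : ∀ i, LocD.{w} (SQ c P (N₀.map (iK K)) i) (fun d => cyQ (GA.jQ c P i d))
    (GA.iQ c P ivF i) := fun i => I.locD i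
  have hz : FiniteDimensional E (zV (sysQ T N₀) (rho2 (iK K) c κ fun g => ρ g)) :=
    KR.zV_fd I.gens hq.rep.one hq.rep.mul
  have hS : FiniteDimensional E (selE (sysQ T N₀) (GA.jQ c P) (rho2 (iK K) c κ fun g => ρ g)
      (famL c κ T P N₀ ρ b h.h2 L)) := by
    have h2 : selE (sysQ T N₀) (GA.jQ c P) (rho2 (iK K) c κ fun g => ρ g)
      (famL c κ T P N₀ ρ b h.h2 L) ≤ zV (sysQ T N₀) (rho2 (iK K) c κ fun g => ρ g) :=
      fun X hX => hX.1
    exact Submodule.finiteDimensional_of_le h2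
  obtain ⟨h3, h4⟩ := QV.finrank_selE (L := famL c κ T P N₀ ρ b h.h2 L) h.two (map_one ρ)
    (dn h.hK h.hc h.hκ h.hD h.kN) (QV.zv_cob hq.lat.symm hq.rep)
    (famL_cob h hρ hl hst hm hL hL0)
  have hle := cob_le h hρ hl hst hm hL hL0
  have heq := selBK_eq h.hK h.hc h.hκ h.hD h.hP h.hθ h.nor h.opn h.kN h.NI hρ h.h2 hL
  have hfd : FiniteDimensional E (Parity.selmerBK (Parity.inertiaOffTwo K) (Parity.cyclo E) κ ρ b
      (stabD (P 2)) L) := by
    rw [heq]
    exact h3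
  refine ⟨L_fd h hρ hL HL, hS, hfd, hle, ?_⟩
  have h5 := GP.dimModulo_add hle hfd
  have h6 := GP.finrank_cob (fun σ : AbsGal K => ρ σ)
  have h7 : Module.finrank E (Parity.coboundaries ρ) + Module.finrank E
      (Parity.fixedBy (fun σ : AbsGal K => ρ σ)) = n := h6
  rw [← heq] at h4
  rw [h4]
  omega

/-- THE PARITY. -/
theorem parity_inst [IsLocalRing (OE E)] (I : QU.Inst.{u, w} s c κ D T P N₀ iv ivF tr)
    (hρ : Gn.ConjDual 2 N₀ (inT K T) (Parity.cyclo E) κ ρ b)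
    (hl : Lat b l t L₀) (hst : ∀ g, ∀ x ∈ L₀, ρ g *ᵥ x ∈ L₀)
    (hL : L ≤ Parity.cocycles (fun σ : stabD (K := K) (P 2) => ρ σ))
    (hL0 : Parity.coboundaries (fun σ : stabD (K := K) (P 2) => ρ σ) ≤ L) {δ : ℕ}
    (hP : EvPow (Nat.card (IsLocalRing.ResidueField (OE E)))
      (Nat.card (selNQ (sysQ T N₀) (GA.jQ c P) (rho2 (iK K) c κ fun g => ρ g)
        (famL c κ T P N₀ ρ b (ari_inst I).h2 L)
        ((ari_inst I).qrep hρ hl hst I.glob.glob.char.mul) 1) *
        Nat.card (IsLocalRing.ResidueField (OE E)) ^ δ)) :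
    FiniteDimensional E L ∧
      FiniteDimensional E (Parity.selmerBK (Parity.inertiaOffTwo K) (Parity.cyclo E) κ ρ b
        (stabD (P 2)) L) ∧
      Parity.coboundaries ρ ≤ Parity.selmerBK (Parity.inertiaOffTwo K) (Parity.cyclo E) κ ρ b
        (stabD (P 2)) L ∧
      Even (Parity.dimModulo (Parity.selmerBK (Parity.inertiaOffTwo K) (Parity.cyclo E) κ ρ b
        (stabD (P 2)) L) (Parity.coboundaries ρ) +
        Module.finrank E (Parity.fixedBy (fun σ : AbsGal K => ρ σ)) + δ) :=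
  parity_BK (ari_inst I) hρ hl hst I.glob I.gens (fun i => I.locD i) hL hL0 hP

end Pool.Agent.Work.MP_787500_nt.QW
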